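import Pool.Agent.H961.T4.Stm2

/-!
# Project PN, MO1: first moment of the smooth number of points in short cycles in the plane
-/

set_option autoImplicit false

namespace Pool.Agent.H977.PN

open Finset Equiv Matrix Q292.LC Pool.Agent.H961.T2 Pool.Agent.H961.T3 Pool.Agent.H961.T4
open Pool.Agent.Y998.ST (stirExp nnRate qq hop cycleLen gk exp_const)

/-- the final arithmetic step -/
theorem mo1_arith (s A lam ε δ u v w : ℝ) (hlam : 0 ≤ lam) (hδ : 0 ≤ δ) (hδ2 : δ ≤ 1 / 2)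
    (hδε : δ ≤ ε) (h1 : |s - A| ≤ v + u + δ * s + w) (h2 : |A - lam| ≤ ε * (1 + lam))
    (hu : u ≤ ε) (hv : v ≤ ε) (hw : w ≤ ε) : |s - lam| ≤ 8 * ε * (1 + lam) := by
  have hε : 0 ≤ ε := le_trans hδ hδε
  rw [abs_le] at h1 h2
  have hdl : δ * lam ≤ ε * lam := mul_le_mul_of_nonneg_right hδε hlam
  have hel : 0 ≤ ε * lam := mul_nonneg hε hlam
  rw [abs_le]
  constructor
  · by_contra hcon
    push Not at hcon
    have hpos : 0 < lam - s := by nlinarith
    have h3 : (lam - s) * (1 + δ) ≤ 4 * ε + 2 * (ε * lam) := by nlinarith [h1.1, h2.1]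
    have h4 : lam - s ≤ (lam - s) * (1 + δ) := by nlinarith
    nlinarith
  · by_contra hcon
    push Not at hcon
    have hpos : 0 < s - lam := by nlinarith
    have h3 : (s - lam) * (1 - δ) ≤ 4 * ε + 2 * (ε * lam) := by nlinarith [h1.2, h2.2]
    have h4 : (s - lam) / 2 ≤ (s - lam) * (1 - δ) := by nlinarith
    nlinarith

theorem mo1 (hSTL : S_STL) (hALP : S_ALP) (hMKS : S_MKS) : S_MO1 := by
  obtain ⟨m, T₁, _, hT₁, hS⟩ := hSTL 2 le_rfl
  refine ⟨m, fun ε hε => ?_⟩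
  obtain ⟨e, he0, he1, he8⟩ : ∃ e : ℝ, 0 < e ∧ e ≤ 1 ∧ 8 * e ≤ ε :=
    ⟨min (ε / 8) 1, lt_min (by linarith) one_pos, min_le_right _ _, by
      have := min_le_left (ε / 8) 1
      linarith⟩
  obtain ⟨T₂, hT₂, hA⟩ := hALP e he0
  have hpi := Real.pi_pos
  have hpi3 := Real.pi_gt_three
  have hc0 : 0 < 16 * Real.pi / e := by positivity
  refine ⟨max (max T₁ T₂) (max ((16 * Real.pi / e) ^ (16 : ℝ)) (4 * Real.pi / e)),
    le_trans hT₁ (le_trans (le_max_left _ _) (le_max_left _ _)), ?_⟩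
  intro L _ t w hL hTt hTL hlog hw0 hw1 hw
  have hM1 : 1 ≤ max (max T₁ T₂) (max ((16 * Real.pi / e) ^ (16 : ℝ)) (4 * Real.pi / e)) :=
    le_trans hT₁ (le_trans (le_max_left _ _) (le_max_left _ _))
  have ht1 : T₁ ≤ t := le_trans (le_trans (le_max_left _ _) (le_max_left _ _)) hTt
  have ht2 : T₂ ≤ t := le_trans (le_trans (le_max_right _ _) (le_max_left _ _)) hTt
  have ht3 : (16 * Real.pi / e) ^ (16 : ℝ) ≤ t :=
    le_trans (le_trans (le_max_left _ _) (le_max_right _ _)) hTt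
  have ht4 : 4 * Real.pi / e ≤ t :=
    le_trans (le_trans (le_max_right _ _) (le_max_right _ _)) hTt
  have htone : 1 ≤ t := le_trans hT₁ ht1
  have ht0 : 0 < t := lt_of_lt_of_le one_pos htone
  have hT2L : T₂ * t ≤ L := by
    refine le_trans ?_ hTL
    exact mul_le_mul_of_nonneg_right (le_trans (le_max_right _ _) (le_max_left _ _)) ht0.le
  have htL : t ≤ L := by
    refine le_trans ?_ hTL
    nlinarith
  have hLr : (3 : ℝ) ≤ L := by exact_mod_cast hL
  have hL0 : (0 : ℝ) < L := by linarith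
  have htL2 : t ≤ (L : ℝ) ^ 2 := by nlinarith
  obtain ⟨hA1, hA2⟩ := hA L t w hL ht2 hT2L hw0 hw1 hw
  have hS1 := hS L t w 1 ⌈Real.sqrt t⌉₊ (fun _ => 1) hL ht1 hlog htL2 hw0 hw1 hw
    (fun _ => ⟨zero_le_one, le_rfl⟩)
  have e1 : (fun g : Perm (Fin 2 → ZMod L) => sb w (fun _ => 1) g) = fun g => sm w g :=
    funext fun g => (hMKS _ g w hw0 hw1).1
  have e2 : (fun g : Perm (Fin 2 → ZMod L) =>
      mk (ι := Finset (Fin 2 → ZMod L)) card w (cycs g) (fun _ => 1)) = fun _ => 1 :=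
    funext fun g => (hMKS _ g w hw0 hw1).2.1
  have e3 : (fun g : Perm (Fin 2 → ZMod L) =>
      mk (ι := Finset (Fin 2 → ZMod L)) card w (cycs g)
        (fun J => (∑ C ∈ J, (C.card : ℝ)) * 1)) = fun g => sm w g := by
    funext g
    simp only [mul_one]
    exact (hMKS _ g w hw0 hw1).2.2.1
  rw [e1, e2, e3, exp_const, mul_one, mul_one] at hS1
  have hlam : 0 ≤ Real.log (1 / (1 - w)) := by
    apply Real.log_nonneg
    rw [le_div_iff₀ (by linarith)]
    linarith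
  have hτ : t ^ (-(1 / 16) : ℝ) ≤ e / (16 * Real.pi) := by
    have h1 : t ^ (-(1 / 16) : ℝ) ≤ ((16 * Real.pi / e) ^ (16 : ℝ)) ^ (-(1 / 16) : ℝ) :=
      Real.rpow_le_rpow_of_nonpos (by positivity) ht3 (by norm_num)
    rw [← Real.rpow_mul hc0.le] at h1
    have h2 : (16 : ℝ) * -(1 / 16) = -1 := by norm_num
    rw [h2, Real.rpow_neg_one, inv_div] at h1
    exact h1
  have hτ0 : 0 < t ^ (-(1 / 16) : ℝ) := Real.rpow_pos_of_pos ht0 _
  generalize stirExp (nnRate 2 L) t (fun g => sm w g) = S at hS1 ⊢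
  generalize al 2 L t w ⌈Real.sqrt t⌉₊ = α at hS1 hA1
  generalize t ^ (-(1 / 16) : ℝ) = τ at hS1 hτ hτ0
  generalize w ^ ⌈Real.sqrt t⌉₊ = ω at hS1 hA2
  have h1w : 0 < 1 - w := by linarith
  have hτ' : 16 * Real.pi * τ ≤ e := by
    rw [le_div_iff₀ (by positivity)] at hτ
    linarith
  have h4τ : 4 * τ ≤ 16 * Real.pi * τ / 12 := by nlinarith
  have ha : 0 < 4 * Real.pi * t / (L : ℝ) ^ 2 := by positivity
  have key : |4 * Real.pi * t / (L : ℝ) ^ 2 * S - 4 * Real.pi * t / (L : ℝ) ^ 2 * α| ≤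
      16 * Real.pi * τ + 4 * Real.pi * t * (ω / (1 - w)) +
        4 * τ * (4 * Real.pi * t / (L : ℝ) ^ 2 * S) + 4 * Real.pi * t / (L : ℝ) ^ 4 := by
    rw [← mul_sub, abs_mul, abs_of_pos ha]
    refine le_trans (mul_le_mul_of_nonneg_left hS1 ha.le) (le_of_eq ?_)
    field_simp
    ring
  have hlast : 4 * Real.pi * t / (L : ℝ) ^ 4 ≤ e := by
    have h1 : t ^ 2 ≤ (L : ℝ) ^ 4 := by
      have := mul_le_mul htL2 htL2 ht0.le (by positivity)
      calc t ^ 2 = t * t := by ring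
        _ ≤ (L : ℝ) ^ 2 * (L : ℝ) ^ 2 := this
        _ = (L : ℝ) ^ 4 := by ring
    have h2 : 4 * Real.pi ≤ e * t := by
      rw [div_le_iff₀ he0] at ht4
      linarith
    rw [div_le_iff₀ (by positivity)]
    calc 4 * Real.pi * t ≤ e * t * t := mul_le_mul_of_nonneg_right h2 ht0.le
      _ = e * t ^ 2 := by ring
      _ ≤ e * (L : ℝ) ^ 4 := mul_le_mul_of_nonneg_left h1 he0.le
  have hfin := mo1_arith (4 * Real.pi * t / (L : ℝ) ^ 2 * S) (4 * Real.pi * t / (L : ℝ) ^ 2 * α)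
    (Real.log (1 / (1 - w))) e (4 * τ) (4 * Real.pi * t * (ω / (1 - w))) (16 * Real.pi * τ)
    (4 * Real.pi * t / (L : ℝ) ^ 4) hlam (by linarith) (by linarith) (by linarith) key hA1 hA2
    hτ' hlast
  refine le_trans hfin (mul_le_mul_of_nonneg_right he8 (by linarith))

end Pool.Agent.H977.PN
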